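import Mathlib

/-!
Royer's conjecture: a convex body is determined by the real Ehrhart functions of its integer
translates.
-/

namespace Pool.Agent.Results.MP_c39918_co.Q1

open Set Pointwise

/-- A convex body in `ℝ^d`: compact, convex, nonempty interior. -/
def IsConvexBody {d : ℕ} (K : Set (Fin d → ℝ)) : Prop :=
  IsCompact K ∧ Convex ℝ K ∧ (interior K).Nonempty

/-- The integer vector `z` viewed in `ℝ^d`. -/
def toR {d : ℕ} (z : Fin d → ℤ) : Fin d → ℝ := fun i => (z i : ℝ)

/-- The translate `K + w = {x + w : x ∈ K}`. -/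
def translate {d : ℕ} (K : Set (Fin d → ℝ)) (w : Fin d → ℤ) : Set (Fin d → ℝ) :=
  (fun x => x + toR w) '' K

/-- The real Ehrhart function `L_K(s) = #(sK ∩ ℤ^d)`. -/
noncomputable def L {d : ℕ} (K : Set (Fin d → ℝ)) (s : ℝ) : ℕ :=
  {z : Fin d → ℤ | toR z ∈ s • K}.ncard

lemma mem_iff {d : ℕ} (K : Set (Fin d → ℝ)) (w z : Fin d → ℤ) {t : ℝ} (ht : 0 < t) :
    toR z ∈ t⁻¹ • translate K w ↔ t • toR z - toR w ∈ K := by
  rw [Set.mem_smul_set_iff_inv_smul_mem₀ (inv_ne_zero ht.ne'), inv_inv]
  constructor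
  · rintro ⟨x, hx, hx'⟩
    have : t • toR z - toR w = x := by rw [← hx']; simp
    rwa [this]
  · intro h
    exact ⟨_, h, by simp⟩

lemma uniq {d : ℕ} {R t : ℝ} (hRt : 2 * R < t) (ht : 0 < t) (w z z' : Fin d → ℤ)
    (h : ‖t • toR z - toR w‖ ≤ R) (h' : ‖t • toR z' - toR w‖ ≤ R) : z = z' := by
  funext i
  have h1 := (norm_le_pi_norm (t • toR z - toR w) i).trans h
  have h2 := (norm_le_pi_norm (t • toR z' - toR w) i).trans h'
  simp only [Pi.sub_apply, Pi.smul_apply, toR, smul_eq_mul, Real.norm_eq_abs] at h1 h2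
  have h3 : |t * ((z i : ℝ) - z' i)| < t := by
    have := abs_sub_le (t * (z i : ℝ) - w i) 0 (t * (z' i : ℝ) - w i)
    rw [sub_zero, zero_sub, abs_neg] at this
    have e : t * (z i : ℝ) - w i - (t * (z' i : ℝ) - w i) = t * ((z i : ℝ) - z' i) := by ring
    rw [e] at this
    linarith
  rw [abs_mul, abs_of_pos ht] at h3
  have h4 : |(z i : ℝ) - z' i| < 1 := by
    by_contra hc
    push Not at hc
    nlinarith
  have h5 : |z i - z' i| < 1 := by exact_mod_cast h4
  have := Int.abs_lt_one_iff.mp h5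
  omega

lemma dense1 {t : ℝ} (ht : Irrational t) (x ε : ℝ) (hε : 0 < ε) :
    ∃ z w : ℤ, |t * z - w - x| < ε := by
  have hd : Dense (AddSubgroup.closure ({t, 1} : Set ℝ) : Set ℝ) := by
    rw [dense_addSubgroupClosure_pair_iff]
    simpa using ht
  obtain ⟨y, hy, hy'⟩ := Metric.dense_iff.mp hd x ε hε
  obtain ⟨m, n, rfl⟩ := AddSubgroup.mem_closure_pair.mp hy'
  refine ⟨m, -n, ?_⟩
  rw [Metric.mem_ball, Real.dist_eq] at hy
  simp only [zsmul_eq_mul, mul_one] at hy
  have : t * m - ((-n : ℤ) : ℝ) - x = m * t + n - x := by push_cast; ring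
  rwa [this]

lemma sub {d : ℕ} {K H : Set (Fin d → ℝ)} (hK : IsConvexBody K) (hH : IsConvexBody H)
    (h : ∀ s : ℝ, 0 < s → ∀ w : Fin d → ℤ, L (translate K w) s = L (translate H w) s) :
    K ⊆ H := by
  obtain ⟨R, hR⟩ := (hK.1.union hH.1).isBounded.exists_norm_le
  obtain ⟨t, hti, ht1, -⟩ := exists_irrational_btwn (show 2 * |R| < 2 * |R| + 1 by linarith)
  have ht : 0 < t := lt_of_le_of_lt (by positivity) ht1
  have hRt : 2 * R < t := lt_of_le_of_lt (by have := le_abs_self R; linarith) ht1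
  have hint : interior K ⊆ H := by
    intro p hp
    by_contra hpH
    have hopen : IsOpen (interior K ∩ Hᶜ) := isOpen_interior.inter hH.1.isClosed.isOpen_compl
    obtain ⟨ε, hε, hball⟩ := Metric.isOpen_iff.mp hopen p ⟨hp, hpH⟩
    choose z w hzw using fun i : Fin d => dense1 hti (p i) ε hε
    have hq : t • toR z - toR w ∈ Metric.ball p ε := by
      rw [Metric.mem_ball, dist_pi_lt_iff hε]
      intro i
      rw [Real.dist_eq]
      simpa [toR] using hzw i
    have hq' := hball hq
    have hqK : t • toR z - toR w ∈ K := interior_subset hq'.1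
    have e1 : {y : Fin d → ℤ | toR y ∈ t⁻¹ • translate K w} = {z} := by
      ext y
      simp only [mem_ofPred_eq, mem_singleton_iff, mem_iff K w y ht]
      constructor
      · intro hy
        exact uniq hRt ht w y z (hR _ (Or.inl hy)) (hR _ (Or.inl hqK))
      · rintro rfl; exact hqK
    have e2 : {y : Fin d → ℤ | toR y ∈ t⁻¹ • translate H w} = ∅ := by
      ext y
      simp only [mem_ofPred_eq, mem_empty_iff_false, mem_iff H w y ht, iff_false]
      intro hy
      have := uniq hRt ht w y z (hR _ (Or.inr hy)) (hR _ (Or.inl hqK))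
      subst this
      exact hq'.2 hy
    have := h t⁻¹ (inv_pos.mpr ht) w
    unfold L at this
    rw [e1, e2] at this
    simp at this
  have hc : K ⊆ closure (interior K) := by
    rw [hK.2.1.closure_interior_eq_closure_of_nonempty_interior hK.2.2]
    exact subset_closure
  exact hc.trans (closure_minimal hint hH.1.isClosed)

theorem result (d : ℕ) (K H : Set (Fin d → ℝ)) (hK : IsConvexBody K) (hH : IsConvexBody H)
    (h : ∀ s : ℝ, 0 < s → ∀ w : Fin d → ℤ, L (translate K w) s = L (translate H w) s) :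
    K = H :=
  Set.Subset.antisymm (sub hK hH h) (sub hH hK fun s hs w => (h s hs w).symm)

end Pool.Agent.Results.MP_c39918_co.Q1
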